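import Pool.Agent.P8H33.QC.Stm3

/-! Project QC, package ANI: the sum of three squares is anisotropic over `ℚ_2`, and `X ^ 2 + X + 1` is
irreducible over `ℚ_2`. -/

set_option autoImplicit false

open Polynomial

namespace Pool.Agent.P8H68.QC

lemma no_one (b c : ℤ_[2]) : 1 + b ^ 2 + c ^ 2 ≠ 0 := by
  intro h
  have h1 := congrArg (PadicInt.toZModPow (p := 2) 2) h
  rw [map_add, map_add, map_pow, map_pow, map_one, map_zero] at h1
  have h2 : ∀ u v : ZMod (2 ^ 2), 1 + u ^ 2 + v ^ 2 ≠ 0 := by decide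
  exact h2 _ _ h1

lemma big {x y z : ℚ_[2]} (h : x ^ 2 + y ^ 2 + z ^ 2 = 0) (hy : ‖y‖ ≤ ‖x‖) (hz : ‖z‖ ≤ ‖x‖) :
    x = 0 ∧ y = 0 ∧ z = 0 := by
  have hx : x = 0 := by
    by_contra hx
    have hn : 0 < ‖x‖ := norm_pos_iff.2 hx
    have h1 : ‖y / x‖ ≤ 1 := by rw [norm_div]; exact (div_le_one hn).2 hy
    have h2 : ‖z / x‖ ≤ 1 := by rw [norm_div]; exact (div_le_one hn).2 hz
    refine no_one ⟨y / x, h1⟩ ⟨z / x, h2⟩ ?_
    apply PadicInt.ext
    push_cast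
    have h3 : (x ^ 2 + y ^ 2 + z ^ 2) / x ^ 2 = 0 := by rw [h, zero_div]
    have hx2 : x ^ 2 ≠ 0 := pow_ne_zero 2 hx
    rw [← h3]
    field_simp
  have h0 : ‖x‖ = 0 := by rw [hx, norm_zero]
  exact ⟨hx, norm_eq_zero.1 (le_antisymm (hy.trans_eq h0) (norm_nonneg _)),
    norm_eq_zero.1 (le_antisymm (hz.trans_eq h0) (norm_nonneg _))⟩

lemma aniso (x y z : ℚ_[2]) (h : x ^ 2 + y ^ 2 + z ^ 2 = 0) : x = 0 ∧ y = 0 ∧ z = 0 := by
  rcases le_total ‖x‖ ‖y‖ with h1 | h1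
  · rcases le_total ‖y‖ ‖z‖ with h2 | h2
    · obtain ⟨a, b, c⟩ := big (x := z) (y := x) (z := y) (by linear_combination h) (h1.trans h2) h2
      exact ⟨b, c, a⟩
    · obtain ⟨a, b, c⟩ := big (x := y) (y := x) (z := z) (by linear_combination h) h1 h2
      exact ⟨b, a, c⟩
  · rcases le_total ‖x‖ ‖z‖ with h2 | h2
    · obtain ⟨a, b, c⟩ := big (x := z) (y := x) (z := y) (by linear_combination h) h2 (h1.trans h2)
      exact ⟨b, c, a⟩
    · exact big h h1 h2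

lemma no_root (x : ℚ_[2]) : x ^ 2 + x + 1 ≠ 0 := by
  intro h
  have h3 : x ^ 3 = 1 := by linear_combination (x - 1) * h
  have hn : ‖x‖ ≤ 1 := by
    have h4 : ‖x‖ ^ 3 = 1 := by rw [← norm_pow, h3, norm_one]
    exact le_of_eq ((pow_eq_one_iff_of_nonneg (norm_nonneg x) (by norm_num)).1 h4)
  obtain ⟨X, hX⟩ : ∃ X : ℤ_[2], (X : ℚ_[2]) = x := ⟨⟨x, hn⟩, rfl⟩
  have h5 : X ^ 2 + X + 1 = 0 := by
    apply PadicInt.ext
    push_cast
    rw [hX]
    exact h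
  have h6 := congrArg (PadicInt.toZMod (p := 2)) h5
  rw [map_add, map_add, map_pow, map_one, map_zero] at h6
  have h7 : ∀ u : ZMod 2, u ^ 2 + u + 1 ≠ 0 := by decide
  exact h7 _ h6

/-- package ANI -/
theorem ani : Pool.Agent.P8H33.QC.S_ANI := by
  refine ⟨aniso, ?_⟩
  apply irreducible_of_degree_le_three_of_not_isRoot
  · rw [natDegree_cyclotomic]
    decide
  · intro x hx
    rw [cyclotomic_three, IsRoot.def] at hx
    simp only [eval_add, eval_pow, eval_X, eval_one] at hx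
    exact no_root x hx

end Pool.Agent.P8H68.QC
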